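import Pool.Agent.Lib.MP_4e7804_co.Av.All

/-!
# MP_4e7804_co: the order of growth of the maximal number of vertices of mixed fiber polytopes

For all `n = d + 1 ≥ 3` and all vectors `v` of positive integers the maximum `V_n(v)` of the number of
vertices of the mixed fiber polytope of lattice polytopes with `v i` vertices is determined up to a
factor which depends only on `n`: if `v_1 ≥ … ≥ v_n ≥ 1` then
`V_n(v) = Θ_n (v_1 ^ min (n - 2, v_2 v_3 ⋯ v_n) * (v_2 ⋯ v_(n-1)) ^ (n - 2))`.
-/

set_option autoImplicit false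

open Finset

namespace Pool.Agent.Results.MP_4e7804_co.OrderOfGrowth

open Pool.Agent.Lib.MP_4e7804_co

/-- MAIN RESULT (`n = d + 1`; `a` is the position of a largest entry, `z` of a smallest one). -/
theorem result (d : ℕ) (hd : 2 ≤ d) : ∃ C : ℕ, ∀ v : Fin (d + 1) → ℕ, (∀ i, 1 ≤ v i) →
    IsGreatest {N | IsVertexNumber v N} (V v) ∧
    ∀ a z, a ≠ z → (∀ i, v i ≤ v a) → (∀ i, v z ≤ v i) →
      v a ^ min (d - 1) (∏ i ∈ univ.erase a, v i) * (∏ i ∈ (univ.erase a).erase z, v i) ^ (d - 1)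
        ≤ C * V v ∧
      V v ≤ C * (v a ^ min (d - 1) (∏ i ∈ univ.erase a, v i) *
        (∏ i ∈ (univ.erase a).erase z, v i) ^ (d - 1)) :=
  Av.order_all Av.tAllLow Av.tAllUpp d hd

end Pool.Agent.Results.MP_4e7804_co.OrderOfGrowth
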