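import Pool.Agent.Lib.MP_4e7804_co.Tl.All
import Pool.Agent.Lib.MP_4e7804_co.Tw.All

/-!
# MP_4e7804_co: the maximal number of vertices for two polytopes and `n - 2` points, all `n ≥ 4`

For all `n = d + 1 ≥ 4` and all `v` with at most two entries different from `1`, say
`v i₁ = b`, `v i₂ = c`: `V_n(v) = ∑ k ≤ n - 2, C(b, k) C(c, k)`.
-/

set_option autoImplicit false

namespace Pool.Agent.Results.MP_4e7804_co.TwoPolytopes

open Pool.Agent.Lib.MP_4e7804_co

/-- MAIN RESULT. -/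
theorem result : ∀ (d : ℕ) (v : Fin (d + 1) → ℕ) (i₁ i₂ : Fin (d + 1)), 3 ≤ d → i₁ ≠ i₂ →
    1 ≤ v i₁ → 1 ≤ v i₂ → (∀ i, i ≠ i₁ → i ≠ i₂ → v i = 1) →
    IsGreatest {N | IsVertexNumber v N} (∑ k ∈ Finset.range d, (v i₁).choose k * (v i₂).choose k) ∧
      V v = ∑ k ∈ Finset.range d, (v i₁).choose k * (v i₂).choose k := by
  intro d v i₁ i₂ hd hne h1 h2 hv
  have hub : ∀ N, IsVertexNumber v N →
      N ≤ ∑ k ∈ Finset.range d, (v i₁).choose k * (v i₂).choose k := by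
    intro N hN
    have h := Tw.tAllUpper d v N i₁ i₂ hd hne hv hN
    unfold Tw.bd at h
    rwa [Nat.sub_add_cancel (by omega : 1 ≤ d)] at h
  obtain ⟨N, hN, hle⟩ := Tl.tAllLower d v i₁ i₂ hd hne h1 h2 hv
  have hgr : IsGreatest {N | IsVertexNumber v N}
      (∑ k ∈ Finset.range d, (v i₁).choose k * (v i₂).choose k) := by
    refine ⟨?_, fun M hM => hub M hM⟩
    have : N = ∑ k ∈ Finset.range d, (v i₁).choose k * (v i₂).choose k :=
      le_antisymm (hub N hN) hle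
    rw [← this]
    exact hN
  exact ⟨hgr, hgr.csSup_eq⟩

end Pool.Agent.Results.MP_4e7804_co.TwoPolytopes
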