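import Pool.Agent.Lib.MP_4e7804_co.N3.All

/-!
# MP_4e7804_co: the maximal number of vertices of mixed fiber polytopes for `n = 3`

For all `v 0, v 1, v 2 ≥ 1` the maximum `V_3(v)` of the number of vertices of the mixed fiber polytope of
three lattice polygons with `v 0`, `v 1`, `v 2` vertices is determined.
-/

set_option autoImplicit false

namespace Pool.Agent.Results.MP_4e7804_co.V3Exact

open Pool.Agent.Lib.MP_4e7804_co

/-- The value of `V_3`. -/
def value (v : Fin 3 → ℕ) : ℕ :=
  if v 0 = 1 then (if v 1 = 1 then v 2 + 1 else if v 2 = 1 then v 1 + 1 else v 1 * v 2 + 2)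
  else if v 1 = 1 then (if v 2 = 1 then v 0 + 1 else v 0 * v 2 + 2)
  else if v 2 = 1 then v 0 * v 1 + 2
  else v 0 * v 1 + v 0 * v 2 + v 1 * v 2 + 2

/-- MAIN RESULT. -/
theorem result : ∀ v : Fin 3 → ℕ, (∀ i, 1 ≤ v i) →
    IsGreatest {N | IsVertexNumber (d := 2) v N} (value v) ∧ V (d := 2) v = value v := by
  intro v hv
  have h : IsGreatest {N | IsVertexNumber (d := 2) v N} (value v) := N3.tAll v hv
  exact ⟨h, h.csSup_eq⟩

end Pool.Agent.Results.MP_4e7804_co.V3Exact
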